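import Pool.Agent.H37.CNZ.Stmts

/-!
# Board `cnz` (helper37), row ZHF
-/

set_option autoImplicit false

namespace Pool.CND

theorem zhf_thm (hZHD : S_ZHD) (hZMN : S_ZMN) : S_ZHF := by
  intro p n r k F G _ _ _ _ _ _ _ _ κ β hp hn hr hG hκ hκ1 hβ hβs hconj
  by_cases h2 : 2 < Nat.card F ^ n
  · obtain ⟨E, ι, Ψ, d, J, hZ, hcard, hJ, hF⟩ :=
      hZHD p n r k F G κ β hp hn hr h2 hκ hκ1 hβ hβs hconj
    have h := hZMN p d J k G E ι Ψ hp hG hcard hJ hZ
    rw [hF]
    exact Nat.mul_dvd_mul_left _ h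
  · have hF2 : 2 ≤ Nat.card F := Finite.one_lt_card
    have h3 : Nat.card F ≤ Nat.card F ^ n := Nat.le_self_pow (by omega) _
    have h4 : Nat.card F ^ n = 2 := by omega
    have hpF : p ∣ Nat.card F := by
      have : Fintype F := Fintype.ofFinite F
      obtain ⟨f, _, hf⟩ := FiniteField.card F p
      rw [Nat.card_eq_fintype_card, hf]
      exact dvd_pow_self p f.pos.ne'
    have h5 : p ∣ 2 := by
      rw [← h4]
      exact hpF.trans (dvd_pow_self _ (by omega))
    have h6 : p = 2 := (Nat.prime_dvd_prime_iff_eq hp Nat.prime_two).1 h5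
    rw [h4, h6, Nat.gcd_self]
    exact dvd_mul_right _ _

end Pool.CND
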